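import Pool.Agent.Lib_helper44.G4.Defs

/-! # G4, block CNT: pairs with `r ∣ q` -/

namespace Pool.Agent.G4

open Complex MeasureTheory Filter Topology

theorem cnt_card_char (k : ℕ) :
    (Finset.univ : Finset (DirichletCharacter ℂ (k + 2))).card = (k + 2).totient := by
  have h : Nat.card (DirichletCharacter ℂ (k + 2)) = (k + 2).totient :=
    DirichletCharacter.card_eq_totient_of_hasEnoughRootsOfUnity ℂ (k + 2)
  rw [Finset.card_univ, ← Nat.card_eq_fintype_card, h]

theorem cnt_sum (r J : ℕ) : ∑ j ∈ Finset.range (J + 1), r * j ≤ r * J ^ 2 := by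
  induction J with
  | zero => simp
  | succ J ih =>
    rw [Finset.sum_range_succ]
    nlinarith

theorem card_pairs_dvd_pr (N Q r : ℕ) (hr : 0 < r) :
    (((pairs N Q).filter (fun x => r ∣ x.q)).card : ℝ) ≤ Q ^ 2 / r := by
  classical
  have h1 : (pairs N Q).filter (fun x => r ∣ x.q) ⊆
      ((Finset.range (Q - 1)).filter (fun k => r ∣ k + 2)).sigma
        (fun k => (Finset.univ : Finset (DirichletCharacter ℂ (k + 2)))) := by
    intro x hx
    rw [Finset.mem_filter] at hx
    obtain ⟨hx, hr'⟩ := hx
    unfold pairs at hx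
    rw [Finset.mem_sigma, Finset.mem_filter] at hx
    rw [Finset.mem_sigma]
    refine ⟨?_, Finset.mem_univ _⟩
    rw [Finset.mem_filter]
    exact ⟨hx.1.1, hr'⟩
  have h2 : ((pairs N Q).filter (fun x => r ∣ x.q)).card ≤ r * (Q / r) ^ 2 := by
    calc ((pairs N Q).filter (fun x => r ∣ x.q)).card
        ≤ _ := Finset.card_le_card h1
      _ = ∑ k ∈ (Finset.range (Q - 1)).filter (fun k => r ∣ k + 2),
            (Finset.univ : Finset (DirichletCharacter ℂ (k + 2))).card := Finset.card_sigma _ _
      _ ≤ ∑ k ∈ (Finset.range (Q - 1)).filter (fun k => r ∣ k + 2), (k + 2) :=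
          Finset.sum_le_sum fun k _ => (cnt_card_char k).le.trans (Nat.totient_le _)
      _ = ∑ q ∈ ((Finset.range (Q - 1)).filter (fun k => r ∣ k + 2)).image (fun k => k + 2), q := by
          rw [Finset.sum_image]
          intro a _ b _ h
          simpa using h
      _ ≤ ∑ q ∈ (Finset.range (Q / r + 1)).image (fun j => r * j), q := by
          apply Finset.sum_le_sum_of_subset
          intro q hq
          rw [Finset.mem_image] at hq ⊢
          obtain ⟨k, hk, rfl⟩ := hq
          rw [Finset.mem_filter, Finset.mem_range] at hk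
          obtain ⟨hk1, c, hc⟩ := hk
          refine ⟨c, ?_, hc.symm⟩
          rw [Finset.mem_range]
          have h3 : c ≤ Q / r := by
            rw [Nat.le_div_iff_mul_le hr, mul_comm]
            omega
          omega
      _ = ∑ j ∈ Finset.range (Q / r + 1), r * j := by
          rw [Finset.sum_image]
          intro a _ b _ h
          exact Nat.eq_of_mul_eq_mul_left hr h
      _ ≤ r * (Q / r) ^ 2 := cnt_sum r _
  have hr0 : (0 : ℝ) < r := by exact_mod_cast hr
  have h3 : ((Q / r : ℕ) : ℝ) ≤ Q / r := Nat.cast_div_le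
  calc (((pairs N Q).filter (fun x => r ∣ x.q)).card : ℝ)
      ≤ ((r * (Q / r) ^ 2 : ℕ) : ℝ) := by exact_mod_cast h2
    _ = r * ((Q / r : ℕ) : ℝ) ^ 2 := by push_cast; ring
    _ ≤ r * ((Q : ℝ) / r) ^ 2 := by
        apply mul_le_mul_of_nonneg_left _ hr0.le
        exact pow_le_pow_left₀ (Nat.cast_nonneg _) h3 2
    _ = Q ^ 2 / r := by field_simp

end Pool.Agent.G4
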