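import Pool.Agent.Lib_helper44.G4.Defs
import Pool.Agent.Lib_helper93.G4.CNT

/-! # G4, block ORTH -/

namespace Pool.Agent.G4

open Complex MeasureTheory Filter Topology

theorem orth_char {q : ℕ} [NeZero q] (j k : ZMod q) :
    ‖∑ χ : DirichletCharacter ℂ q, χ j * starRingEnd ℂ (χ k)‖ ≤
      if j = k then (q.totient : ℝ) else 0 := by
  by_cases hk : IsUnit k
  · obtain ⟨u, rfl⟩ := hk
    have h1 : ∀ χ : DirichletCharacter ℂ q, starRingEnd ℂ (χ (u : ZMod q)) =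
        χ ((u : ZMod q)⁻¹) := by
      intro χ
      have h2 : starRingEnd ℂ (χ (u : ZMod q)) = χ⁻¹ (u : ZMod q) := MulChar.star_apply' χ _
      rw [h2, MulChar.inv_apply, Ring.inverse_unit, ZMod.inv_coe_unit]
    have h3 := DirichletCharacter.sum_char_inv_mul_char_eq (R := ℂ) (n := q)
      (a := (u : ZMod q)) u.isUnit j
    have h4 : ∑ χ : DirichletCharacter ℂ q, χ j * starRingEnd ℂ (χ (u : ZMod q)) =
        if (u : ZMod q) = j then (q.totient : ℂ) else 0 := by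
      rw [← h3]
      refine Finset.sum_congr rfl fun χ _ => ?_
      rw [h1 χ, mul_comm]
    rw [h4]
    by_cases h : (u : ZMod q) = j
    · rw [if_pos h, if_pos h.symm]
      simp
    · rw [if_neg h, if_neg (Ne.symm h)]
      simp
  · have h0 : ∑ χ : DirichletCharacter ℂ q, χ j * starRingEnd ℂ (χ k) = 0 := by
      refine Finset.sum_eq_zero fun χ _ => ?_
      rw [MulChar.map_nonunit χ hk]
      simp
    rw [h0, norm_zero]
    split_ifs <;> positivity

/-- one modulus, finite sum -/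
theorem orth_one {ι : Type} [DecidableEq ι] (F : Finset ι) (b : ι → ℝ) (hb0 : ∀ i, 0 ≤ b i)
    (n d : ι → ℕ) (q : ℕ) [NeZero q] (β : ι → ℂ) (hβ : ∀ i, ‖β i‖ ≤ b i) :
    ∑ χ : DirichletCharacter ℂ q,
      ‖∑ i ∈ F, β i * χ (n i) * starRingEnd ℂ (χ (d i))‖ ^ 2 ≤
    ∑ i ∈ F, ∑ j ∈ F, b i * b j *
      (if ((n i * d j : ℕ) : ZMod q) = ((n j * d i : ℕ) : ZMod q) then (q.totient : ℝ) else 0) := by
  have h1 : ((∑ χ : DirichletCharacter ℂ q,
      ‖∑ i ∈ F, β i * χ (n i) * starRingEnd ℂ (χ (d i))‖ ^ 2 : ℝ) : ℂ) =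
      ∑ i ∈ F, ∑ j ∈ F, (β i * starRingEnd ℂ (β j)) *
        ∑ χ : DirichletCharacter ℂ q, χ ((n i * d j : ℕ) : ZMod q) *
          starRingEnd ℂ (χ ((n j * d i : ℕ) : ZMod q)) := by
    push_cast
    simp only [Finset.mul_sum]
    have h2 : ∀ χ : DirichletCharacter ℂ q,
        ((‖∑ i ∈ F, β i * χ (n i) * starRingEnd ℂ (χ (d i))‖ : ℝ) : ℂ) ^ 2 =
        ∑ i ∈ F, ∑ j ∈ F, (β i * starRingEnd ℂ (β j)) *
          (χ ((n i : ZMod q) * (d j : ZMod q)) *
            starRingEnd ℂ (χ ((n j : ZMod q) * (d i : ZMod q)))) := by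
      intro χ
      rw [← Complex.mul_conj', map_sum, Finset.sum_mul_sum]
      refine Finset.sum_congr rfl fun i _ => Finset.sum_congr rfl fun j _ => ?_
      simp only [map_mul, Complex.conj_conj]
      ring
    rw [Finset.sum_congr rfl fun χ _ => h2 χ, Finset.sum_comm]
    refine Finset.sum_congr rfl fun i _ => ?_
    rw [Finset.sum_comm]
  have h3 : ∑ χ : DirichletCharacter ℂ q,
      ‖∑ i ∈ F, β i * χ (n i) * starRingEnd ℂ (χ (d i))‖ ^ 2 =
      ‖((∑ χ : DirichletCharacter ℂ q,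
      ‖∑ i ∈ F, β i * χ (n i) * starRingEnd ℂ (χ (d i))‖ ^ 2 : ℝ) : ℂ)‖ := by
    rw [Complex.norm_real, Real.norm_of_nonneg]
    exact Finset.sum_nonneg fun _ _ => by positivity
  rw [h3, h1]
  refine (norm_sum_le _ _).trans (Finset.sum_le_sum fun i _ => ?_)
  refine (norm_sum_le _ _).trans (Finset.sum_le_sum fun j _ => ?_)
  rw [norm_mul, norm_mul, Complex.norm_conj]
  apply mul_le_mul _ (orth_char _ _) (norm_nonneg _) (mul_nonneg (hb0 i) (hb0 j))
  exact mul_le_mul (hβ i) (hβ j) (norm_nonneg _) (hb0 i)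

theorem orth_pairs_card (N Q : ℕ) : ((pairs N Q).card : ℝ) ≤ Q ^ 2 := by
  have h := card_pairs_dvd_pr N Q 1 one_pos
  have h2 : (pairs N Q).filter (fun x => 1 ∣ x.q) = pairs N Q :=
    Finset.filter_true_of_mem fun x _ => one_dvd _
  rw [h2] at h
  simpa using h

theorem orth_tot (M : ℕ) : ∑ k ∈ Finset.range (M - 1), ((k + 2).totient : ℝ) ≤ M ^ 2 := by
  have h1 : ∑ k ∈ Finset.range (M - 1), (k + 2).totient ≤ M ^ 2 := by
    calc ∑ k ∈ Finset.range (M - 1), (k + 2).totient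
        ≤ ∑ k ∈ Finset.range (M - 1), M := Finset.sum_le_sum fun k hk => by
          rw [Finset.mem_range] at hk
          exact (Nat.totient_le _).trans (by omega)
      _ = (M - 1) * M := by simp
      _ ≤ M * M := Nat.mul_le_mul_right _ (Nat.sub_le _ _)
      _ = M ^ 2 := by ring
  exact_mod_cast h1

/-- the finite part -/
theorem orth_fin {ι : Type} [DecidableEq ι] (N : ℕ) (F : Finset ι) (b : ι → ℝ)
    (hb0 : ∀ i, 0 ≤ b i) (n d : ι → ℕ) 
    (hinj : ∀ i j, n i * d j = n j * d i → i = j) : ∃ M : ℕ, ∀ Q : ℕ, ∀ β : ι → ℂ,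
      (∀ i, ‖β i‖ ≤ b i) →
      ∑ x ∈ pairs N Q, ‖∑ i ∈ F, β i * ev x (n i) * starRingEnd ℂ (ev x (d i))‖ ^ 2 ≤
        (∑ i ∈ F, b i ^ 2) * Q ^ 2 + (∑ i ∈ F, b i) ^ 2 * M ^ 2 := by
  classical
  let M : ℕ := 1 + ∑ i ∈ F, ∑ j ∈ F, (n i * d j + n j * d i)
  have hM : ∀ i ∈ F, ∀ j ∈ F, n i * d j + n j * d i < M := by
    intro i hi j hj
    have h1 : n i * d j + n j * d i ≤ ∑ j ∈ F, (n i * d j + n j * d i) :=
      Finset.single_le_sum (f := fun j => n i * d j + n j * d i) (fun _ _ => Nat.zero_le _) hj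
    have h2 : ∑ j ∈ F, (n i * d j + n j * d i) ≤ ∑ i ∈ F, ∑ j ∈ F, (n i * d j + n j * d i) :=
      Finset.single_le_sum (f := fun i => ∑ j ∈ F, (n i * d j + n j * d i))
        (fun _ _ => Nat.zero_le _) hi
    show _ < 1 + _
    omega
  refine ⟨M, fun Q β hβ => ?_⟩
  have h1 : ∀ k : ℕ, ∀ i ∈ F, ∀ j ∈ F, b i * b j *
      (if ((n i * d j : ℕ) : ZMod (k + 2)) = ((n j * d i : ℕ) : ZMod (k + 2)) then
        ((k + 2).totient : ℝ) else 0) ≤
      (if i = j then b i * b j * ((k + 2).totient : ℝ) else 0) +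
        (if k < M - 1 then b i * b j * ((k + 2).totient : ℝ) else 0) := by
    intro k i hi j hj
    have hbb : 0 ≤ b i * b j := mul_nonneg (hb0 i) (hb0 j)
    have hbt : 0 ≤ b i * b j * ((k + 2).totient : ℝ) := by positivity
    by_cases hij : i = j
    · rw [if_pos hij]
      have h2 : (0 : ℝ) ≤ (if k < M - 1 then b i * b j * ((k + 2).totient : ℝ) else 0) := by
        split_ifs
        · exact hbt
        · exact le_rfl
      have h3 : b i * b j * (if ((n i * d j : ℕ) : ZMod (k + 2)) = ((n j * d i : ℕ) : ZMod (k + 2))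
          then ((k + 2).totient : ℝ) else 0) ≤ b i * b j * ((k + 2).totient : ℝ) := by
        apply mul_le_mul_of_nonneg_left _ hbb
        split_ifs
        · exact le_rfl
        · positivity
      linarith
    · rw [if_neg hij, zero_add]
      by_cases hc : ((n i * d j : ℕ) : ZMod (k + 2)) = ((n j * d i : ℕ) : ZMod (k + 2))
      · rw [if_pos hc, if_pos]
        by_contra hk
        have hlt1 : n i * d j < k + 2 := by
          have := hM i hi j hj
          omega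
        have hlt2 : n j * d i < k + 2 := by
          have := hM i hi j hj
          omega
        rw [ZMod.natCast_eq_natCast_iff', Nat.mod_eq_of_lt hlt1, Nat.mod_eq_of_lt hlt2] at hc
        exact hij (hinj i j hc)
      · rw [if_neg hc, mul_zero]
        split_ifs
        · exact hbt
        · exact le_rfl
  have h2 : ∀ k : ℕ, ∑ χ : DirichletCharacter ℂ (k + 2),
      ‖∑ i ∈ F, β i * χ (n i) * starRingEnd ℂ (χ (d i))‖ ^ 2 ≤
      (∑ i ∈ F, b i ^ 2) * ((k + 2).totient : ℝ) +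
        (if k < M - 1 then (∑ i ∈ F, b i) ^ 2 * ((k + 2).totient : ℝ) else 0) := by
    intro k
    refine (orth_one F b hb0 n d (k + 2) β hβ).trans ?_
    calc ∑ i ∈ F, ∑ j ∈ F, b i * b j *
          (if ((n i * d j : ℕ) : ZMod (k + 2)) = ((n j * d i : ℕ) : ZMod (k + 2)) then
            ((k + 2).totient : ℝ) else 0)
        ≤ ∑ i ∈ F, ∑ j ∈ F, ((if i = j then b i * b j * ((k + 2).totient : ℝ) else 0) +
          (if k < M - 1 then b i * b j * ((k + 2).totient : ℝ) else 0)) :=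
          Finset.sum_le_sum fun i hi => Finset.sum_le_sum fun j hj => h1 k i hi j hj
      _ = _ := by
          simp only [Finset.sum_add_distrib]
          congr 1
          · rw [Finset.sum_mul]
            refine Finset.sum_congr rfl fun i hi => ?_
            rw [Finset.sum_ite_eq, if_pos hi]
            ring
          · split_ifs
            · rw [sq, Finset.sum_mul_sum, Finset.sum_mul]
              refine Finset.sum_congr rfl fun i _ => ?_
              rw [Finset.sum_mul]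
            · simp
  unfold pairs
  rw [Finset.sum_sigma]
  calc ∑ k ∈ (Finset.range (Q - 1)).filter (fun k => (k + 2).Coprime N),
        ∑ χ ∈ Finset.univ.filter (fun χ : DirichletCharacter ℂ (k + 2) => χ.IsPrimitive),
          ‖∑ i ∈ F, β i * ev ⟨k, χ⟩ (n i) * starRingEnd ℂ (ev ⟨k, χ⟩ (d i))‖ ^ 2
      ≤ ∑ k ∈ Finset.range (Q - 1),
        ∑ χ ∈ Finset.univ.filter (fun χ : DirichletCharacter ℂ (k + 2) => χ.IsPrimitive),
          ‖∑ i ∈ F, β i * ev ⟨k, χ⟩ (n i) * starRingEnd ℂ (ev ⟨k, χ⟩ (d i))‖ ^ 2 :=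
        Finset.sum_le_sum_of_subset_of_nonneg (Finset.filter_subset _ _) fun _ _ _ =>
          Finset.sum_nonneg fun _ _ => by positivity
    _ ≤ ∑ k ∈ Finset.range (Q - 1), ((∑ i ∈ F, b i ^ 2) * ((k + 2).totient : ℝ) +
        (if k < M - 1 then (∑ i ∈ F, b i) ^ 2 * ((k + 2).totient : ℝ) else 0)) := by
        refine Finset.sum_le_sum fun k _ => le_trans ?_ (h2 k)
        exact Finset.sum_le_sum_of_subset_of_nonneg (Finset.filter_subset _ _) fun _ _ _ => by
          positivity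
    _ = (∑ i ∈ F, b i ^ 2) * ∑ k ∈ Finset.range (Q - 1), ((k + 2).totient : ℝ) +
        (∑ i ∈ F, b i) ^ 2 * ∑ k ∈ (Finset.range (Q - 1)).filter (fun k => k < M - 1),
          ((k + 2).totient : ℝ) := by
        rw [Finset.sum_add_distrib, Finset.mul_sum, Finset.mul_sum, Finset.sum_filter]
    _ ≤ (∑ i ∈ F, b i ^ 2) * Q ^ 2 + (∑ i ∈ F, b i) ^ 2 * M ^ 2 := by
        apply add_le_add
        · exact mul_le_mul_of_nonneg_left (orth_tot Q)
            (Finset.sum_nonneg fun _ _ => by positivity)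
        · apply mul_le_mul_of_nonneg_left _ (by positivity)
          refine le_trans ?_ (orth_tot M)
          apply Finset.sum_le_sum_of_subset_of_nonneg
          · intro k hk
            rw [Finset.mem_filter] at hk
            exact Finset.mem_range.2 hk.2
          · intro _ _ _
            positivity

theorem orth_pr {ι : Type} (N : ℕ) (b : ι → ℝ) (hb0 : ∀ i, 0 ≤ b i) (hb : Summable b)
    (n d : ι → ℕ)
    (hn : ∀ i, 0 < n i) (hd : ∀ i, 0 < d i) (hinj : ∀ i j, n i * d j = n j * d i → i = j)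
    {ε : ℝ} (hε : 0 < ε) : ∃ Q₀ : ℕ, ∀ Q : ℕ, Q₀ ≤ Q → ∀ β : ι → ℂ, (∀ i, ‖β i‖ ≤ b i) →
      ∑ x ∈ pairs N Q, ‖∑' i, β i * ev x (n i) * starRingEnd ℂ (ev x (d i))‖ ^ 2 ≤
        ((∑' i, b i ^ 2) + ε) * Q ^ 2 := by
  classical
  set B : ℝ := ∑' i, b i with hB
  have hB0 : 0 ≤ B := tsum_nonneg hb0
  have hb2 : Summable fun i => b i ^ 2 := by
    apply Summable.of_nonneg_of_le (fun i => by positivity) (fun i => ?_) (hb.mul_left B)
    have h1 : b i ≤ B := hb.le_tsum i fun j _ => hb0 j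
    nlinarith [hb0 i]
  obtain ⟨τ, hτ0, hτ⟩ : ∃ τ : ℝ, 0 < τ ∧ 3 * (B + 1) * τ ≤ ε / 2 ∧ τ ≤ 1 := by
    refine ⟨min 1 (ε / (6 * (B + 1))), by positivity, ?_, min_le_left _ _⟩
    calc 3 * (B + 1) * min 1 (ε / (6 * (B + 1))) ≤ 3 * (B + 1) * (ε / (6 * (B + 1))) := by
          apply mul_le_mul_of_nonneg_left (min_le_right _ _) (by positivity)
      _ = ε / 2 := by field_simp; norm_num
  obtain ⟨F, hF⟩ : ∃ F : Finset ι, B - τ < ∑ i ∈ F, b i :=
    (hb.hasSum.eventually (lt_mem_nhds (show B - τ < B by linarith))).exists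
  obtain ⟨M, hM⟩ := orth_fin N F b hb0 n d hinj
  obtain ⟨Q₀, hQ₀⟩ : ∃ Q₀ : ℕ, B ^ 2 * M ^ 2 * (2 / ε) ≤ Q₀ := exists_nat_ge _
  refine ⟨max Q₀ 1, fun Q hQ β hβ => ?_⟩
  have hFB : ∑ i ∈ F, b i ≤ B := hb.sum_le_tsum F fun i _ => hb0 i
  have hF0 : 0 ≤ ∑ i ∈ F, b i := Finset.sum_nonneg fun i _ => hb0 i
  have hev : ∀ (x : Ix) (i : ι), ‖β i * ev x (n i) * starRingEnd ℂ (ev x (d i))‖ ≤ b i := by
    intro x i
    rw [norm_mul, norm_mul, Complex.norm_conj]
    have h1 : ‖ev x (n i)‖ ≤ 1 := x.2.norm_le_one _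
    have h2 : ‖ev x (d i)‖ ≤ 1 := x.2.norm_le_one _
    calc ‖β i‖ * ‖ev x (n i)‖ * ‖ev x (d i)‖ ≤ ‖β i‖ * 1 * 1 := by gcongr
      _ ≤ b i := by rw [mul_one, mul_one]; exact hβ i
  have hpt : ∀ x : Ix, ‖∑' i, β i * ev x (n i) * starRingEnd ℂ (ev x (d i))‖ ^ 2 ≤
      ‖∑ i ∈ F, β i * ev x (n i) * starRingEnd ℂ (ev x (d i))‖ ^ 2 + ε / 2 := by
    intro x
    have hs : Summable fun i => β i * ev x (n i) * starRingEnd ℂ (ev x (d i)) :=
      Summable.of_norm_bounded hb (hev x)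
    have h1 := hs.sum_add_tsum_compl (s := F)
    have h2 : ‖∑' i : ((F : Set ι)ᶜ : Set ι), β i * ev x (n i) *
        starRingEnd ℂ (ev x (d i))‖ ≤ τ := by
      have hsb : Summable fun i : ((F : Set ι)ᶜ : Set ι) => b i := hb.subtype _
      have h3 : ∑' i : ((F : Set ι)ᶜ : Set ι), b i = B - ∑ i ∈ F, b i := by
        have := hb.sum_add_tsum_compl (s := F)
        linarith
      calc ‖∑' i : ((F : Set ι)ᶜ : Set ι), β i * ev x (n i) *
              starRingEnd ℂ (ev x (d i))‖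
          ≤ ∑' i : ((F : Set ι)ᶜ : Set ι), b i :=
            tsum_of_norm_bounded hsb.hasSum fun i => hev x i
        _ ≤ τ := by rw [h3]; linarith
    have h4 : ‖∑ i ∈ F, β i * ev x (n i) * starRingEnd ℂ (ev x (d i))‖ ≤ B := by
      refine (norm_sum_le _ _).trans (le_trans (Finset.sum_le_sum fun i _ => hev x i) hFB)
    rw [← h1]
    set A := ∑ i ∈ F, β i * ev x (n i) * starRingEnd ℂ (ev x (d i))
    set R := ∑' i : ((F : Set ι)ᶜ : Set ι), β i * ev x (n i) * starRingEnd ℂ (ev x (d i))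
    have h5 : ‖A + R‖ ≤ ‖A‖ + ‖R‖ := norm_add_le _ _
    have h6 : ‖A + R‖ ^ 2 ≤ (‖A‖ + ‖R‖) ^ 2 := pow_le_pow_left₀ (norm_nonneg _) h5 2
    have h7 := norm_nonneg A
    have h8 := norm_nonneg R
    have h9 : ‖A‖ * ‖R‖ ≤ B * τ := mul_le_mul h4 h2 h8 hB0
    have h10 : ‖R‖ * ‖R‖ ≤ 1 * τ := mul_le_mul (h2.trans hτ.2) h2 h8 zero_le_one
    nlinarith [hτ.1]
  have hQ1 : 1 ≤ Q := le_trans (le_max_right _ _) hQ
  have hQ2 : (1 : ℝ) ≤ Q := by exact_mod_cast hQ1
  have hQ3 : (Q₀ : ℝ) ≤ Q := by exact_mod_cast le_trans (le_max_left _ _) hQ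
  calc ∑ x ∈ pairs N Q, ‖∑' i, β i * ev x (n i) * starRingEnd ℂ (ev x (d i))‖ ^ 2
      ≤ ∑ x ∈ pairs N Q, (‖∑ i ∈ F, β i * ev x (n i) * starRingEnd ℂ (ev x (d i))‖ ^ 2 +
          ε / 2) := Finset.sum_le_sum fun x _ => hpt x
    _ = ∑ x ∈ pairs N Q, ‖∑ i ∈ F, β i * ev x (n i) * starRingEnd ℂ (ev x (d i))‖ ^ 2 +
          (pairs N Q).card * (ε / 2) := by
        rw [Finset.sum_add_distrib, Finset.sum_const, nsmul_eq_mul]
    _ ≤ ((∑ i ∈ F, b i ^ 2) * Q ^ 2 + (∑ i ∈ F, b i) ^ 2 * M ^ 2) + Q ^ 2 * (ε / 2) := by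
        apply add_le_add (hM Q β hβ)
        exact mul_le_mul_of_nonneg_right (orth_pairs_card N Q) (by linarith)
    _ ≤ ((∑' i, b i ^ 2) * Q ^ 2 + Q ^ 2 * (ε / 2)) + Q ^ 2 * (ε / 2) := by
        apply add_le_add _ le_rfl
        apply add_le_add
        · exact mul_le_mul_of_nonneg_right (hb2.sum_le_tsum F fun i _ => by positivity)
            (by positivity)
        · calc (∑ i ∈ F, b i) ^ 2 * M ^ 2 ≤ B ^ 2 * M ^ 2 := by gcongr
            _ = (B ^ 2 * M ^ 2 * (2 / ε)) * (ε / 2) := by field_simp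
            _ ≤ Q * (ε / 2) := by
                apply mul_le_mul_of_nonneg_right (hQ₀.trans hQ3) (by linarith)
            _ ≤ Q ^ 2 * (ε / 2) := by
                apply mul_le_mul_of_nonneg_right _ (by linarith)
                nlinarith
    _ = ((∑' i, b i ^ 2) + ε) * Q ^ 2 := by ring

end Pool.Agent.G4
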