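import Pool.Agent.Lib_helper44.G4.Defs

/-! # G4, block LSA: the additive large sieve (Gallagher) -/

namespace Pool.Agent.G4

open Complex MeasureTheory Filter Topology

/-- the trigonometric series -/
noncomputable def lsaS (b : ℕ → ℂ) (t : ℝ) : ℂ := ∑' n : ℕ, b n * cexp (2 * Real.pi * n * I * t)

theorem lsa_norm (n : ℕ) (t : ℝ) : ‖cexp (2 * Real.pi * n * I * t)‖ = 1 := by
  have : (2 * Real.pi * n * I * t : ℂ) = ((2 * Real.pi * n * t : ℝ) : ℂ) * I := by
    push_cast
    ring
  rw [this, Complex.norm_exp_ofReal_mul_I]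

theorem lsa_summable {b : ℕ → ℂ} (hb : Summable fun n => ‖b n‖) (t : ℝ) :
    Summable fun n : ℕ => b n * cexp (2 * Real.pi * n * I * t) := by
  apply Summable.of_norm_bounded hb
  intro n
  rw [norm_mul, lsa_norm, mul_one]

theorem lsa_cont {b : ℕ → ℂ} (hb : Summable fun n => ‖b n‖) : Continuous (lsaS b) := by
  unfold lsaS
  apply continuous_tsum (u := fun n => ‖b n‖) _ hb
  · intro n t
    rw [norm_mul, lsa_norm, mul_one]
  · intro n
    fun_prop

theorem lsa_le {b : ℕ → ℂ} (hb : Summable fun n => ‖b n‖) (t : ℝ) :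
    ‖lsaS b t‖ ≤ ∑' n, ‖b n‖ := by
  unfold lsaS
  apply tsum_of_norm_bounded hb.hasSum
  intro n
  rw [norm_mul, lsa_norm, mul_one]

theorem lsa_deriv {b : ℕ → ℂ} (hb : Summable fun n => ‖b n‖)
    (hb1 : Summable fun n : ℕ => (n : ℝ) * ‖b n‖) (t : ℝ) :
    HasDerivAt (lsaS b) (lsaS (fun n => b n * (2 * Real.pi * n * I)) t) t := by
  unfold lsaS
  apply hasDerivAt_tsum (u := fun n : ℕ => 2 * Real.pi * ((n : ℝ) * ‖b n‖))
    (g := fun (n : ℕ) (t : ℝ) => b n * cexp (2 * Real.pi * n * I * t))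
    (g' := fun (n : ℕ) (t : ℝ) => b n * (2 * Real.pi * n * I) * cexp (2 * Real.pi * n * I * t))
    (y₀ := 0) (hb1.mul_left _)
  · intro n y
    have h1 : HasDerivAt (fun t : ℝ => (2 * Real.pi * n * I * t : ℂ)) (2 * Real.pi * n * I) y := by
      have := (Complex.ofRealCLM.hasDerivAt (x := y)).const_mul (2 * Real.pi * n * I : ℂ)
      simpa using this
    have h2 := (h1.cexp).const_mul (b n)
    refine h2.congr_deriv ?_
    ring
  · intro n y
    rw [norm_mul, lsa_norm, mul_one, norm_mul]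
    have : ‖(2 * Real.pi * n * I : ℂ)‖ = 2 * Real.pi * n := by
      rw [norm_mul, norm_mul, norm_mul, Complex.norm_I, Complex.norm_natCast, Complex.norm_real,
        Real.norm_of_nonneg Real.pi_pos.le]
      simp
    rw [this]
    apply le_of_eq
    ring
  · exact lsa_summable hb 0

/-- orthogonality of the exponentials -/
theorem lsa_int_exp (c : ℝ) (k : ℤ) :
    ∫ t in c..(c + 1), cexp (2 * Real.pi * k * I * t) = if k = 0 then 1 else 0 := by
  by_cases hk : k = 0
  · subst hk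
    simp
  · rw [if_neg hk]
    have hc : (2 * Real.pi * k * I : ℂ) ≠ 0 := by
      simp [Real.pi_ne_zero, hk]
    rw [integral_exp_mul_complex hc]
    have h1 : cexp (2 * Real.pi * k * I * ((c + 1 : ℝ) : ℂ)) = cexp (2 * Real.pi * k * I * c) := by
      have : (2 * Real.pi * k * I * ((c + 1 : ℝ) : ℂ) : ℂ) =
          2 * Real.pi * k * I * c + k * (2 * Real.pi * I) := by
        push_cast
        ring
      rw [this, Complex.exp_add, Complex.exp_int_mul_two_pi_mul_I, mul_one]
    rw [h1, sub_self, zero_div]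

theorem lsa_coef {b : ℕ → ℂ} (hb : Summable fun n => ‖b n‖) (c : ℝ) (n : ℕ) :
    ∫ t in c..(c + 1), cexp (2 * Real.pi * n * I * t) * starRingEnd ℂ (lsaS b t) =
      starRingEnd ℂ (b n) := by
  have hle : c ≤ c + 1 := by linarith
  rw [intervalIntegral.integral_of_le hle]
  have h1 : ∀ t : ℝ, cexp (2 * Real.pi * n * I * t) * starRingEnd ℂ (lsaS b t) =
      ∑' m : ℕ, starRingEnd ℂ (b m) * cexp (2 * Real.pi * ((n - m : ℤ) : ℂ) * I * t) := by
    intro t
    unfold lsaS
    rw [Complex.conj_tsum, ← tsum_mul_left]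
    congr 1
    funext m
    rw [map_mul, ← Complex.exp_conj, mul_left_comm, ← Complex.exp_add]
    congr 2
    simp only [map_mul, Complex.conj_ofReal, Complex.conj_I, map_natCast, map_ofNat]
    push_cast
    ring
  simp_rw [h1]
  have hn : ∀ (m : ℕ) (t : ℝ), ‖cexp (2 * Real.pi * ((n - m : ℤ) : ℂ) * I * t)‖ = 1 := by
    intro m t
    have : (2 * Real.pi * ((n - m : ℤ) : ℂ) * I * t : ℂ) =
        ((2 * Real.pi * (n - m) * t : ℝ) : ℂ) * I := by
      push_cast
      ring
    rw [this, Complex.norm_exp_ofReal_mul_I]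
  have h2 := MeasureTheory.hasSum_integral_of_summable_integral_norm
    (μ := volume.restrict (Set.Ioc c (c + 1)))
    (F := fun (m : ℕ) (t : ℝ) => starRingEnd ℂ (b m) *
      cexp (2 * Real.pi * ((n - m : ℤ) : ℂ) * I * t)) (fun m => ?_) ?_
  · rw [← h2.tsum_eq]
    have h3 : ∀ m : ℕ, ∫ t in Set.Ioc c (c + 1), starRingEnd ℂ (b m) *
        cexp (2 * Real.pi * ((n - m : ℤ) : ℂ) * I * t) = if m = n then starRingEnd ℂ (b n) else 0 := by
      intro m
      rw [integral_const_mul, ← intervalIntegral.integral_of_le hle, lsa_int_exp]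
      by_cases h : m = n
      · subst h
        simp
      · rw [if_neg h, if_neg (by omega), mul_zero]
    simp_rw [h3]
    rw [tsum_ite_eq]
  · apply Continuous.integrableOn_Ioc
    fun_prop
  · have h4 : (fun m : ℕ => ∫ t, ‖starRingEnd ℂ (b m) *
        cexp (2 * Real.pi * ((n - m : ℤ) : ℂ) * I * t)‖ ∂(volume.restrict (Set.Ioc c (c + 1)))) =
        fun m => ‖b m‖ := by
      funext m
      simp_rw [norm_mul, hn, Complex.norm_conj]
      simp
    rw [h4]
    exact hb

theorem lsa_parseval {b : ℕ → ℂ} (hb : Summable fun n => ‖b n‖) (c : ℝ) :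
    ∫ t in Set.Ioc c (c + 1), ‖lsaS b t‖ ^ 2 = ∑' n, ‖b n‖ ^ 2 := by
  have hle : c ≤ c + 1 := by linarith
  have key : ((∫ t in Set.Ioc c (c + 1), ‖lsaS b t‖ ^ 2 : ℝ) : ℂ) =
      ((∑' n, ‖b n‖ ^ 2 : ℝ) : ℂ) := by
    rw [← integral_complex_ofReal]
    have h1 : ∀ t : ℝ, ((‖lsaS b t‖ ^ 2 : ℝ) : ℂ) =
        ∑' n : ℕ, b n * (cexp (2 * Real.pi * n * I * t) * starRingEnd ℂ (lsaS b t)) := by
      intro t
      push_cast
      rw [← Complex.mul_conj']
      calc lsaS b t * starRingEnd ℂ (lsaS b t)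
          = (∑' n : ℕ, b n * cexp (2 * Real.pi * n * I * t)) * starRingEnd ℂ (lsaS b t) := rfl
        _ = _ := by
          rw [← tsum_mul_right]
          congr 1
          funext n
          rw [mul_assoc]
    simp_rw [h1]
    have hcont := lsa_cont hb
    have h2 := MeasureTheory.hasSum_integral_of_summable_integral_norm
      (μ := volume.restrict (Set.Ioc c (c + 1)))
      (F := fun (n : ℕ) (t : ℝ) => b n * (cexp (2 * Real.pi * n * I * t) *
        starRingEnd ℂ (lsaS b t))) (fun n => ?_) ?_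
    · rw [← h2.tsum_eq, Complex.ofReal_tsum]
      congr 1
      funext n
      rw [integral_const_mul, ← intervalIntegral.integral_of_le hle, lsa_coef hb,
        Complex.mul_conj']
      push_cast
      rfl
    · apply Continuous.integrableOn_Ioc
      fun_prop
    · apply Summable.of_nonneg_of_le _ _ (hb.mul_right (∑' n, ‖b n‖))
      · intro n
        exact integral_nonneg fun t => norm_nonneg _
      · intro n
        calc ∫ t, ‖b n * (cexp (2 * Real.pi * n * I * t) * starRingEnd ℂ (lsaS b t))‖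
              ∂(volume.restrict (Set.Ioc c (c + 1)))
            ≤ ∫ _t, ‖b n‖ * (∑' n, ‖b n‖) ∂(volume.restrict (Set.Ioc c (c + 1))) := by
              apply integral_mono
              · apply Integrable.norm
                apply Continuous.integrableOn_Ioc
                fun_prop
              · exact integrable_const _
              · intro t
                simp only [norm_mul, lsa_norm, one_mul, Complex.norm_conj]
                exact mul_le_mul_of_nonneg_left (lsa_le hb t) (norm_nonneg _)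
          _ = ‖b n‖ * (∑' n, ‖b n‖) := by simp
  exact_mod_cast key

/-- Sobolev-Gallagher inequality -/
theorem lsa_gal {f f' : ℝ → ℂ} (hf : ∀ t, HasDerivAt f (f' t) t) (hf' : Continuous f')
    {u v t₀ : ℝ} (h1 : u ≤ t₀) (h2 : t₀ ≤ v) :
    (v - u) * ‖f t₀‖ ≤ (∫ t in u..v, ‖f t‖) + (v - u) * ∫ t in u..v, ‖f' t‖ := by
  have huv : u ≤ v := h1.trans h2
  have hfc : Continuous f := continuous_iff_continuousAt.2 fun t => (hf t).continuousAt
  have h3 : ∀ t ∈ Set.Icc u v, ‖f t₀‖ ≤ ‖f t‖ + ∫ t in u..v, ‖f' t‖ := by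
    intro t ht
    have h4 : ∫ s in t..t₀, f' s = f t₀ - f t :=
      intervalIntegral.integral_eq_sub_of_hasDerivAt (fun s _ => hf s)
        (hf'.intervalIntegrable _ _)
    have h5 : ‖∫ s in t..t₀, f' s‖ ≤ ∫ t in u..v, ‖f' t‖ := by
      calc ‖∫ s in t..t₀, f' s‖ ≤ ∫ s in Set.uIoc t t₀, ‖f' s‖ :=
            intervalIntegral.norm_integral_le_integral_norm_uIoc
        _ ≤ ∫ s in Set.Ioc u v, ‖f' s‖ := by
            apply setIntegral_mono_set
            · exact hf'.norm.integrableOn_Ioc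
            · exact Filter.Eventually.of_forall fun _ => norm_nonneg _
            · apply LE.le.eventuallyLE
              intro s hs
              rw [Set.mem_uIoc] at hs
              rcases hs with hs | hs
              · exact ⟨lt_of_le_of_lt ht.1 hs.1, hs.2.trans h2⟩
              · exact ⟨lt_of_le_of_lt h1 hs.1, hs.2.trans ht.2⟩
        _ = ∫ t in u..v, ‖f' t‖ := (intervalIntegral.integral_of_le huv).symm
    calc ‖f t₀‖ = ‖f t + (f t₀ - f t)‖ := by congr 1; ring
      _ ≤ ‖f t‖ + ‖f t₀ - f t‖ := norm_add_le _ _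
      _ ≤ _ := by
        rw [← h4]
        linarith
  have h6 : ∫ _t in u..v, ‖f t₀‖ ≤ ∫ t in u..v, (‖f t‖ + ∫ t in u..v, ‖f' t‖) := by
    apply intervalIntegral.integral_mono_on huv
    · exact intervalIntegrable_const
    · exact (hfc.norm.intervalIntegrable _ _).add intervalIntegrable_const
    · exact h3
  rw [intervalIntegral.integral_const, intervalIntegral.integral_add
    (hfc.norm.intervalIntegrable _ _) intervalIntegrable_const,
    intervalIntegral.integral_const, smul_eq_mul, smul_eq_mul] at h6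
  exact h6

theorem lsa_cs {f g : ℝ → ℝ} (hf : Continuous f) (hg : Continuous g) (c : ℝ) :
    ∫ t in Set.Ioc c (c + 1), f t * g t ≤
      √(∫ t in Set.Ioc c (c + 1), f t ^ 2) * √(∫ t in Set.Ioc c (c + 1), g t ^ 2) := by
  set A := ∫ t in Set.Ioc c (c + 1), f t ^ 2 with hA
  set B := ∫ t in Set.Ioc c (c + 1), g t ^ 2 with hB
  set C := ∫ t in Set.Ioc c (c + 1), f t * g t with hC
  have hA0 : 0 ≤ A := integral_nonneg fun _ => by positivity
  have h : ∀ x : ℝ, 0 ≤ A * (x * x) + (-2 * C) * x + B := by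
    intro x
    have h1 : A * (x * x) + (-2 * C) * x + B =
        ∫ t in Set.Ioc c (c + 1), (x * f t - g t) ^ 2 := by
      have h2 : ∀ t, (x * f t - g t) ^ 2 = (x * x) * f t ^ 2 + ((-2 * x) * (f t * g t) + g t ^ 2) := by
        intro t; ring
      simp_rw [h2]
      rw [integral_add, integral_add, integral_const_mul, integral_const_mul]
      · rw [← hA, ← hB, ← hC]; ring
      · apply Continuous.integrableOn_Ioc; fun_prop
      · apply Continuous.integrableOn_Ioc; fun_prop
      · apply Continuous.integrableOn_Ioc; fun_prop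
      · apply Continuous.integrableOn_Ioc; fun_prop
    rw [h1]
    exact integral_nonneg fun _ => by positivity
  have h2 := discrim_le_zero h
  unfold discrim at h2
  have h3 : C ^ 2 ≤ A * B := by nlinarith
  calc C ≤ |C| := le_abs_self C
    _ = √(C ^ 2) := (Real.sqrt_sq_eq_abs C).symm
    _ ≤ √(A * B) := Real.sqrt_le_sqrt h3
    _ = √A * √B := Real.sqrt_mul hA0 B

/-- Farey points are well spaced -/
theorem lsa_farey {Q q a q' a' : ℕ} (hq : 1 ≤ q) (hqQ : q ≤ Q) (ha : a < q) (hc : a.Coprime q)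
    (hq' : 1 ≤ q') (hqQ' : q' ≤ Q) (ha' : a' < q') (hc' : a'.Coprime q')
    (hne : ¬ (q = q' ∧ a = a')) :
    1 / (Q : ℝ) ^ 2 ≤ |(a : ℝ) / q - (a' : ℝ) / q'| := by
  have hq0 : (0 : ℝ) < q := by exact_mod_cast hq
  have hq0' : (0 : ℝ) < q' := by exact_mod_cast hq'
  have h1 : (a : ℝ) / q - (a' : ℝ) / q' = (((a : ℤ) * q' - a' * q : ℤ) : ℝ) / (q * q') := by
    push_cast
    field_simp
  have h2 : ((a : ℤ) * q' - a' * q : ℤ) ≠ 0 := by
    intro h
    have h3 : a * q' = a' * q := by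
      have : (a : ℤ) * q' = a' * q := by linarith
      exact_mod_cast this
    have e1 : q ∣ a * q' := ⟨a', by rw [h3, mul_comm]⟩
    have e2 : q ∣ q' := Nat.Coprime.dvd_of_dvd_mul_left hc.symm e1
    have e3 : q' ∣ a' * q := ⟨a, by rw [← h3, mul_comm]⟩
    have e4 : q' ∣ q := Nat.Coprime.dvd_of_dvd_mul_left hc'.symm e3
    have e5 := Nat.dvd_antisymm e2 e4
    subst e5
    exact hne ⟨rfl, Nat.eq_of_mul_eq_mul_right (by omega) h3⟩
  rw [h1, abs_div, abs_of_pos (mul_pos hq0 hq0')]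
  have h4 : (1 : ℝ) ≤ |(((a : ℤ) * q' - a' * q : ℤ) : ℝ)| := by
    rw [← Int.cast_abs]
    exact_mod_cast Int.one_le_abs h2
  have h5 : (q : ℝ) * q' ≤ (Q : ℝ) ^ 2 := by
    rw [sq]
    exact mul_le_mul (by exact_mod_cast hqQ) (by exact_mod_cast hqQ') hq0'.le (by positivity)
  exact div_le_div₀ (by linarith) h4 (mul_pos hq0 hq0') h5

theorem ls_add_pr (Q : ℕ) (b : ℕ → ℂ) (hb : Summable fun n : ℕ => (n : ℝ) * ‖b n‖) :
    ∑ q ∈ Finset.Icc 1 Q, ∑ a ∈ (Finset.range q).filter (fun a => a.Coprime q),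
      ‖∑' n : ℕ, b n * cexp (2 * Real.pi * I * (a * n / q))‖ ^ 2 ≤
    Q ^ 2 * (∑' n : ℕ, ‖b n‖ ^ 2) +
      2 * Real.pi * (√(∑' n : ℕ, ‖b n‖ ^ 2) * √(∑' n : ℕ, (n : ℝ) ^ 2 * ‖b n‖ ^ 2)) := by
  rcases Nat.eq_zero_or_pos Q with rfl | hQ
  · simp only [Finset.Icc_eq_empty_of_lt (show (0 : ℕ) < 1 by norm_num), Finset.sum_empty]
    positivity
  have hQ0 : (0 : ℝ) < Q := by exact_mod_cast hQ
  have hQ1 : (1 : ℝ) ≤ Q := by exact_mod_cast hQ
  have hb0 : Summable fun n : ℕ => ‖b n‖ := by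
    rw [← summable_nat_add_iff 1]
    apply Summable.of_nonneg_of_le (fun n => norm_nonneg _) (fun n => ?_)
      ((summable_nat_add_iff 1).2 hb)
    push_cast
    have : (0 : ℝ) ≤ n := Nat.cast_nonneg n
    nlinarith [norm_nonneg (b (n + 1))]
  set b' : ℕ → ℂ := fun n => b n * (2 * Real.pi * n * I) with hb'
  have hnb' : ∀ n, ‖b' n‖ = 2 * Real.pi * ((n : ℝ) * ‖b n‖) := by
    intro n
    rw [hb']
    simp only [norm_mul, Complex.norm_I, Complex.norm_natCast, Complex.norm_real,
      Real.norm_of_nonneg Real.pi_pos.le]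
    simp
    ring
  have hbs' : Summable fun n => ‖b' n‖ := by
    simp_rw [hnb']
    exact hb.mul_left _
  have hS := lsa_cont hb0
  have hS' := lsa_cont hbs'
  have hder := lsa_deriv hb0 hb
  set δ : ℝ := 1 / (Q : ℝ) ^ 2 with hδ
  have hδ0 : 0 < δ := by positivity
  set h : ℝ → ℝ := fun t => (Q : ℝ) ^ 2 * ‖lsaS b t‖ ^ 2 + ‖lsaS b t‖ * ‖lsaS b' t‖ with hh
  have hhc : Continuous h := by fun_prop
  have hh0 : ∀ t, 0 ≤ h t := fun t => by positivity
  -- the pointwise inequality
  have hpt : ∀ x : ℝ, ‖lsaS b x‖ ^ 2 ≤ ∫ t in Set.Ioc (x - δ / 2) (x + δ / 2), h t := by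
    intro x
    have hd2 : ∀ t, HasDerivAt (fun t => lsaS b t ^ 2) (2 * lsaS b t * lsaS b' t) t := by
      intro t
      have := (hder t).fun_pow 2
      refine this.congr_deriv ?_
      simp [hb']
    have hc2 : Continuous fun t => 2 * lsaS b t * lsaS b' t := by fun_prop
    have g1 := lsa_gal hd2 hc2 (u := x) (v := x + δ / 2) (t₀ := x) le_rfl (by linarith)
    have g2 := lsa_gal hd2 hc2 (u := x - δ / 2) (v := x) (t₀ := x) (by linarith) le_rfl
    have i1 : ∀ u v : ℝ, IntervalIntegrable (fun t => ‖lsaS b t ^ 2‖) volume u v := fun u v =>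
      Continuous.intervalIntegrable (by fun_prop) _ _
    have i2 : ∀ u v : ℝ, IntervalIntegrable (fun t => ‖2 * lsaS b t * lsaS b' t‖) volume u v :=
      fun u v => Continuous.intervalIntegrable (by fun_prop) _ _
    have a1 := intervalIntegral.integral_add_adjacent_intervals (i1 (x - δ / 2) x)
      (i1 x (x + δ / 2))
    have a2 := intervalIntegral.integral_add_adjacent_intervals (i2 (x - δ / 2) x)
      (i2 x (x + δ / 2))
    have g3 : δ * ‖lsaS b x ^ 2‖ ≤ (∫ t in (x - δ / 2)..(x + δ / 2), ‖lsaS b t ^ 2‖) +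
        δ / 2 * ∫ t in (x - δ / 2)..(x + δ / 2), ‖2 * lsaS b t * lsaS b' t‖ := by
      rw [← a1, ← a2]
      have e1 : x + δ / 2 - x = δ / 2 := by ring
      have e2 : x - (x - δ / 2) = δ / 2 := by ring
      rw [e1] at g1
      rw [e2] at g2
      nlinarith
    have g4 : ‖lsaS b x‖ ^ 2 ≤ (Q : ℝ) ^ 2 * (∫ t in (x - δ / 2)..(x + δ / 2), ‖lsaS b t‖ ^ 2) +
        ∫ t in (x - δ / 2)..(x + δ / 2), ‖lsaS b t‖ * ‖lsaS b' t‖ := by
      have e3 : ∫ t in (x - δ / 2)..(x + δ / 2), ‖2 * lsaS b t * lsaS b' t‖ =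
          2 * ∫ t in (x - δ / 2)..(x + δ / 2), ‖lsaS b t‖ * ‖lsaS b' t‖ := by
        rw [← intervalIntegral.integral_const_mul]
        congr 1
        funext t
        rw [norm_mul, norm_mul]
        simp
        ring
      rw [e3] at g3
      simp_rw [norm_pow] at g3
      have e4 : (Q : ℝ) ^ 2 * δ = 1 := by rw [hδ]; field_simp
      have g5 := mul_le_mul_of_nonneg_left g3 (by positivity : (0 : ℝ) ≤ (Q : ℝ) ^ 2)
      calc ‖lsaS b x‖ ^ 2 = (Q : ℝ) ^ 2 * (δ * ‖lsaS b x‖ ^ 2) := by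
            rw [← mul_assoc, e4, one_mul]
        _ ≤ _ := g5
        _ = (Q : ℝ) ^ 2 * (∫ t in (x - δ / 2)..(x + δ / 2), ‖lsaS b t‖ ^ 2) +
            ((Q : ℝ) ^ 2 * δ) * ∫ t in (x - δ / 2)..(x + δ / 2), ‖lsaS b t‖ * ‖lsaS b' t‖ := by
            ring
        _ = _ := by rw [e4, one_mul]
    refine g4.trans (le_of_eq ?_)
    rw [← intervalIntegral.integral_of_le (by linarith), ← intervalIntegral.integral_const_mul,
      ← intervalIntegral.integral_add]
    · apply Continuous.intervalIntegrable; fun_prop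
    · apply Continuous.intervalIntegrable; fun_prop
  -- rewrite the sum
  set F : Finset (Σ _ : ℕ, ℕ) := (Finset.Icc 1 Q).sigma
    (fun q => (Finset.range q).filter (fun a => a.Coprime q)) with hF
  have hFm : ∀ y ∈ F, 1 ≤ y.1 ∧ y.1 ≤ Q ∧ y.2 < y.1 ∧ y.2.Coprime y.1 := by
    intro y hy
    rw [hF, Finset.mem_sigma, Finset.mem_Icc, Finset.mem_filter, Finset.mem_range] at hy
    exact ⟨hy.1.1, hy.1.2, hy.2.1, hy.2.2⟩
  let pt : (Σ _ : ℕ, ℕ) → ℝ := fun y => (y.2 : ℝ) / y.1
  have e5 : ∑ q ∈ Finset.Icc 1 Q, ∑ a ∈ (Finset.range q).filter (fun a => a.Coprime q),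
      ‖∑' n : ℕ, b n * cexp (2 * Real.pi * I * (a * n / q))‖ ^ 2 =
      ∑ y ∈ F, ‖lsaS b (pt y)‖ ^ 2 := by
    rw [hF, Finset.sum_sigma]
    refine Finset.sum_congr rfl fun q _ => Finset.sum_congr rfl fun a _ => ?_
    congr 2
    unfold lsaS
    congr 1
    funext n
    congr 2
    simp only [pt]
    push_cast
    ring
  rw [e5]
  have hdisj : Set.Pairwise (F : Set (Σ _ : ℕ, ℕ))
      (Function.onFun Disjoint fun y => Set.Ioc (pt y - δ / 2) (pt y + δ / 2)) := by
    intro y hy z hz hyz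
    obtain ⟨y1, y2, y3, y4⟩ := hFm y hy
    obtain ⟨z1, z2, z3, z4⟩ := hFm z hz
    have h1 := lsa_farey y1 y2 y3 y4 z1 z2 z3 z4 (by
      rintro ⟨h1, h2⟩
      apply hyz
      rcases y with ⟨a, b⟩
      rcases z with ⟨c, d⟩
      simp only at h1 h2
      subst h1 h2
      rfl)
    rw [Function.onFun, Set.disjoint_left]
    intro t ht1 ht2
    have h2 : |pt y - pt z| < δ := by
      rw [abs_lt]
      constructor
      · linarith [ht1.1, ht1.2, ht2.1, ht2.2]
      · linarith [ht1.1, ht1.2, ht2.1, ht2.2]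
    exact absurd h1 (not_le.2 h2)
  calc ∑ y ∈ F, ‖lsaS b (pt y)‖ ^ 2
      ≤ ∑ y ∈ F, ∫ t in Set.Ioc (pt y - δ / 2) (pt y + δ / 2), h t :=
        Finset.sum_le_sum fun y _ => hpt (pt y)
    _ = ∫ t in ⋃ y ∈ F, Set.Ioc (pt y - δ / 2) (pt y + δ / 2), h t := by
        rw [integral_biUnion_finset]
        · intro y _
          exact measurableSet_Ioc
        · exact hdisj
        · intro y _
          exact hhc.integrableOn_Ioc
    _ ≤ ∫ t in Set.Ioc (-(δ / 2)) (-(δ / 2) + 1), h t := by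
        apply setIntegral_mono_set
        · exact hhc.integrableOn_Ioc
        · exact Filter.Eventually.of_forall fun t => hh0 t
        · apply LE.le.eventuallyLE
          intro t ht
          rw [Set.mem_iUnion₂] at ht
          obtain ⟨y, hy, ht⟩ := ht
          obtain ⟨y1, y2, y3, y4⟩ := hFm y hy
          have y10 : (0 : ℝ) < y.1 := by exact_mod_cast y1
          have hp0 : 0 ≤ pt y := by positivity
          have hp1 : pt y ≤ 1 - δ := by
            have h1 : pt y ≤ 1 - 1 / y.1 := by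
              show (y.2 : ℝ) / y.1 ≤ 1 - 1 / y.1
              rw [le_sub_iff_add_le, ← add_div, div_le_one y10]
              exact_mod_cast y3
            have h2 : δ ≤ 1 / y.1 := by
              rw [hδ]
              apply one_div_le_one_div_of_le y10
              have : (y.1 : ℝ) ≤ Q := by exact_mod_cast y2
              nlinarith
            linarith
          exact ⟨by linarith [ht.1], by linarith [ht.2]⟩
    _ = (Q : ℝ) ^ 2 * (∫ t in Set.Ioc (-(δ / 2)) (-(δ / 2) + 1), ‖lsaS b t‖ ^ 2) +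
        ∫ t in Set.Ioc (-(δ / 2)) (-(δ / 2) + 1), ‖lsaS b t‖ * ‖lsaS b' t‖ := by
        rw [hh, integral_add, integral_const_mul]
        · apply Continuous.integrableOn_Ioc; fun_prop
        · apply Continuous.integrableOn_Ioc; fun_prop
    _ ≤ (Q : ℝ) ^ 2 * (∑' n, ‖b n‖ ^ 2) + √(∑' n, ‖b n‖ ^ 2) * √(∑' n, ‖b' n‖ ^ 2) := by
        have h1 := lsa_cs hS.norm hS'.norm (-(δ / 2))
        rw [lsa_parseval hb0, lsa_parseval hbs'] at h1
        rw [lsa_parseval hb0]
        linarith
    _ = _ := by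
        congr 1
        have h1 : ∑' n, ‖b' n‖ ^ 2 = (2 * Real.pi) ^ 2 * ∑' n : ℕ, (n : ℝ) ^ 2 * ‖b n‖ ^ 2 := by
          rw [← tsum_mul_left]
          congr 1
          funext n
          rw [hnb']
          ring
        rw [h1, Real.sqrt_mul (by positivity), Real.sqrt_sq (by positivity)]
        ring

end Pool.Agent.G4
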