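import Pool.Agent.Lib_helper44.G4.Defs
import Pool.Agent.Lib_helper73.Var.LS

/-! # G4, block LSC: from additive to multiplicative characters -/

namespace Pool.Agent.G4

open Complex MeasureTheory Filter Topology

theorem lsc_fin (q : ℕ) [NeZero q] (b : ℕ → ℂ) (I : Finset ℕ) :
    (open Classical in ∑ χ : DirichletCharacter ℂ q, if χ.IsPrimitive then
      ‖∑ n ∈ I, b n * χ n‖ ^ 2 else 0) ≤
    ∑ a ∈ (Finset.range q).filter (fun a => a.Coprime q),
      ‖∑ n ∈ I, b n * cexp (2 * Real.pi * Complex.I * (a * n / q))‖ ^ 2 := by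
  classical
  have hq : (0 : ℝ) < q := by exact_mod_cast Nat.pos_of_ne_zero (NeZero.ne q)
  have h1 := Pool.Agent.Var73.prim_single (d := q) I b
  have h2 : (∑ χ : DirichletCharacter ℂ q, if χ.IsPrimitive then
      ‖∑ n ∈ I, b n * χ n‖ ^ 2 else 0) =
      ∑ ψ ∈ Pool.Agent.Var73.Pr q, ‖∑ m ∈ I, b m * ψ (m : ZMod q)‖ ^ 2 := by
    unfold Pool.Agent.Var73.Pr
    rw [Finset.sum_filter]
  have h3 : ∑ a ∈ (Finset.range q).filter (fun a => a.Coprime q),
      ‖∑ n ∈ I, b n * cexp (2 * Real.pi * Complex.I * (a * n / q))‖ ^ 2 =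
      ∑ c ∈ Pool.Agent.Var73.Cd q,
        ‖∑ m ∈ I, b m * Pool.Agent.Var35.e (m * ((c : ℝ) / q))‖ ^ 2 := by
    unfold Pool.Agent.Var73.Cd
    refine Finset.sum_congr rfl fun c _ => ?_
    congr 2
    refine Finset.sum_congr rfl fun n _ => ?_
    unfold Pool.Agent.Var35.e
    congr 2
    push_cast
    ring
  rw [h2, h3]
  set A := ∑ ψ ∈ Pool.Agent.Var73.Pr q, ‖∑ m ∈ I, b m * ψ (m : ZMod q)‖ ^ 2
  set B := ∑ c ∈ Pool.Agent.Var73.Cd q,
        ‖∑ m ∈ I, b m * Pool.Agent.Var35.e (m * ((c : ℝ) / q))‖ ^ 2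
  have hB : 0 ≤ B := Finset.sum_nonneg fun _ _ => by positivity
  have h4 : (q.totient : ℝ) ≤ q := by exact_mod_cast Nat.totient_le q
  have h5 : (q : ℝ) * A ≤ q * B := h1.trans (mul_le_mul_of_nonneg_right h4 hB)
  exact le_of_mul_le_mul_left h5 hq

theorem ls_char_pr (q : ℕ) [NeZero q] (b : ℕ → ℂ) (hb : Summable fun n : ℕ => ‖b n‖) :
    (open Classical in ∑ χ : DirichletCharacter ℂ q, if χ.IsPrimitive then
      ‖∑' n : ℕ, b n * χ n‖ ^ 2 else 0) ≤
    ∑ a ∈ (Finset.range q).filter (fun a => a.Coprime q),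
      ‖∑' n : ℕ, b n * cexp (2 * Real.pi * I * (a * n / q))‖ ^ 2 := by
  classical
  have hs1 : ∀ χ : DirichletCharacter ℂ q, Summable fun n : ℕ => b n * χ n := by
    intro χ
    apply Summable.of_norm_bounded hb
    intro n
    rw [norm_mul]
    exact mul_le_of_le_one_right (norm_nonneg _) (χ.norm_le_one _)
  have hs2 : ∀ a : ℕ, Summable fun n : ℕ => b n * cexp (2 * Real.pi * I * (a * n / q)) := by
    intro a
    apply Summable.of_norm_bounded hb
    intro n
    rw [norm_mul]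
    apply mul_le_of_le_one_right (norm_nonneg _)
    have : (2 * Real.pi * I * (a * n / q) : ℂ) = ((2 * Real.pi * (a * n / q) : ℝ) : ℂ) * I := by
      push_cast
      ring
    rw [this, Complex.norm_exp_ofReal_mul_I]
  have ht1 : Tendsto (fun M : ℕ => ∑ χ : DirichletCharacter ℂ q, if χ.IsPrimitive then
      ‖∑ n ∈ Finset.range M, b n * χ n‖ ^ 2 else 0) atTop
      (𝓝 (∑ χ : DirichletCharacter ℂ q, if χ.IsPrimitive then
      ‖∑' n : ℕ, b n * χ n‖ ^ 2 else 0)) := by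
    apply tendsto_finsetSum
    intro χ _
    split_ifs
    · exact ((hs1 χ).hasSum.tendsto_sum_nat.norm).pow 2
    · exact tendsto_const_nhds
  have ht2 : Tendsto (fun M : ℕ => ∑ a ∈ (Finset.range q).filter (fun a => a.Coprime q),
      ‖∑ n ∈ Finset.range M, b n * cexp (2 * Real.pi * I * (a * n / q))‖ ^ 2) atTop
      (𝓝 (∑ a ∈ (Finset.range q).filter (fun a => a.Coprime q),
      ‖∑' n : ℕ, b n * cexp (2 * Real.pi * I * (a * n / q))‖ ^ 2)) := by
    apply tendsto_finsetSum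
    intro a _
    exact ((hs2 a).hasSum.tendsto_sum_nat.norm).pow 2
  exact le_of_tendsto_of_tendsto' ht1 ht2 fun M => lsc_fin q b (Finset.range M)

end Pool.Agent.G4
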