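import Pool.Agent.Lib_helper44.G4.Defs
import Pool.Agent.Lib_helper93.G4.LSA
import Pool.Agent.Lib_helper93.G4.LSC

/-! # G4, block LS: the multiplicative large sieve -/

namespace Pool.Agent.G4

open Complex MeasureTheory Filter Topology

theorem large_sieve_pr (N Q : ℕ) (b : ℕ → ℂ) (hb : Summable fun n : ℕ => (n : ℝ) * ‖b n‖) :
    ∑ x ∈ pairs N Q, ‖∑' n : ℕ, b n * ev x n‖ ^ 2 ≤
    Q ^ 2 * (∑' n : ℕ, ‖b n‖ ^ 2) +
      2 * Real.pi * (√(∑' n : ℕ, ‖b n‖ ^ 2) * √(∑' n : ℕ, (n : ℝ) ^ 2 * ‖b n‖ ^ 2)) := by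
  classical
  refine le_trans ?_ (ls_add_pr Q b hb)
  have hb1 : Summable fun n : ℕ => ‖b n‖ := by
    rw [← summable_nat_add_iff 1]
    apply Summable.of_nonneg_of_le (fun n => norm_nonneg _) (fun n => ?_)
      ((summable_nat_add_iff 1).2 hb)
    push_cast
    have : (0 : ℝ) ≤ n := Nat.cast_nonneg n
    nlinarith [norm_nonneg (b (n + 1))]
  unfold pairs
  rw [Finset.sum_sigma]
  calc ∑ k ∈ (Finset.range (Q - 1)).filter (fun k => (k + 2).Coprime N),
        ∑ χ ∈ Finset.univ.filter (fun χ : DirichletCharacter ℂ (k + 2) => χ.IsPrimitive),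
          ‖∑' n : ℕ, b n * ev ⟨k, χ⟩ n‖ ^ 2
      ≤ ∑ k ∈ Finset.range (Q - 1),
        ∑ χ ∈ Finset.univ.filter (fun χ : DirichletCharacter ℂ (k + 2) => χ.IsPrimitive),
          ‖∑' n : ℕ, b n * ev ⟨k, χ⟩ n‖ ^ 2 :=
        Finset.sum_le_sum_of_subset_of_nonneg (Finset.filter_subset _ _) fun _ _ _ =>
          Finset.sum_nonneg fun _ _ => by positivity
    _ ≤ ∑ k ∈ Finset.range (Q - 1),
        ∑ a ∈ (Finset.range (k + 2)).filter (fun a => a.Coprime (k + 2)),
          ‖∑' n : ℕ, b n * cexp (2 * Real.pi * I * (a * n / ((k + 2 : ℕ) : ℂ)))‖ ^ 2 := by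
        refine Finset.sum_le_sum fun k _ => ?_
        have h := ls_char_pr (k + 2) b hb1
        rw [← Finset.sum_filter] at h
        exact h
    _ = ∑ q ∈ Finset.Ico 2 (Q + 1),
        ∑ a ∈ (Finset.range q).filter (fun a => a.Coprime q),
          ‖∑' n : ℕ, b n * cexp (2 * Real.pi * I * (a * n / (q : ℂ)))‖ ^ 2 := by
        rw [Finset.sum_Ico_eq_sum_range]
        have h1 : Q + 1 - 2 = Q - 1 := by omega
        rw [h1]
        refine Finset.sum_congr rfl fun k _ => ?_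
        rw [add_comm 2 k]
    _ ≤ _ := by
        apply Finset.sum_le_sum_of_subset_of_nonneg
        · intro q hq
          rw [Finset.mem_Ico] at hq
          rw [Finset.mem_Icc]
          omega
        · intro _ _ _
          exact Finset.sum_nonneg fun _ _ => by positivity

end Pool.Agent.G4
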